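import Pool.Agent.N418.PPD.Main

set_option autoImplicit false

namespace Pool.Agent.Results.MP_9b13a2_co.UnboundedDiameter

open Pool.Agent.N418.PPD Pool.Agent.R127.PathPair

/-- Path-pairable planar graphs have unbounded diameter. -/
theorem result (D : ℕ) : ∃ (V : Type) (_ : Fintype V) (G : SimpleGraph V),
    Even (Fintype.card V) ∧ IsPlanar G ∧ PathPairable G ∧ G.Connected ∧ D ≤ G.diam :=
  main D

end Pool.Agent.Results.MP_9b13a2_co.UnboundedDiameter
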